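import Pool.Agent.Helper29.E3.St1

/-!
# Module GQS of project E3 (MP_3923f3_nt): multiples of `θ`
-/

set_option autoImplicit false

namespace Pool.Agent.Helper10.E3

open Finset
open Pool.Agent.Helper29.E3 Pool.Agent.Helper49.PC
open Pool.Agent.Helper48.BK (ex th lz Vz Pz gs nd Apx AdN Sol thd)

theorem nd_nonneg_GQS (t : ℝ) : 0 ≤ nd t := abs_nonneg _

theorem gs_nonneg_GQS {N : ℝ} (t : ℝ) (hN : 0 ≤ N) : 0 ≤ gs N t := by
  unfold gs
  split_ifs with h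
  · exact hN
  · exact one_div_nonneg.mpr (nd_nonneg_GQS t)

theorem gs_le_N_GQS {N : ℝ} (t : ℝ) : gs N t ≤ N := by
  unfold gs
  split_ifs with h
  · exact le_rfl
  · push Not at h
    have h0 := nd_nonneg_GQS t
    have hpos : 0 < nd t := by
      rcases h0.lt_or_eq with h1 | h1
      · exact h1
      · rw [← h1, mul_zero] at h
        linarith
    rw [div_le_iff₀ hpos]
    exact h.le

theorem gs_le_inv_GQS {N t c : ℝ} (hc : 0 < c) (h : c ≤ nd t) : gs N t ≤ 1 / c := by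
  have hpos : 0 < nd t := lt_of_lt_of_le hc h
  have h1 : 1 / nd t ≤ 1 / c := one_div_le_one_div_of_le hc h
  unfold gs
  split_ifs with h2
  · refine le_trans ?_ h1
    rw [le_div_iff₀ hpos]
    exact h2
  · exact h1

/-- the distance of `q θ` to the integers for small `q` -/
theorem nd_low_GQS {q v : ℕ} {h : ℤ} {θ : ℝ} (hq : 1 ≤ q) (hqv : 2 * q ≤ v) (hA : Apx θ h v) :
    1 / (2 * (v : ℝ)) ≤ nd (q * θ) := by
  obtain ⟨hv, hco, hap⟩ := hA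
  have hv0 : (0 : ℝ) < v := by exact_mod_cast hv
  have hq0 : (0 : ℝ) < q := by exact_mod_cast hq
  set m : ℤ := round ((q : ℝ) * θ) with hm
  -- the integer `q h - m v` is not zero
  have hne : (q : ℤ) * h - m * v ≠ 0 := by
    intro h0
    have h1 : (v : ℤ) ∣ h * q := by
      refine ⟨m, ?_⟩
      linarith
    have h2 : (v : ℤ) ∣ q := hco.symm.dvd_of_dvd_mul_left h1
    have h3 : v ∣ q := by exact_mod_cast h2
    have h4 := Nat.le_of_dvd hq h3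
    omega
  have h1 : (1 : ℝ) ≤ |((q : ℝ) * h - m * v)| := by
    have := Int.one_le_abs hne
    exact_mod_cast this
  have h2 : 1 / (v : ℝ) ≤ |(q : ℝ) * (h / v) - m| := by
    have e : (q : ℝ) * (h / v) - m = ((q : ℝ) * h - m * v) / v := by
      field_simp
    rw [e, abs_div, abs_of_pos hv0]
    exact div_le_div_of_nonneg_right h1 hv0.le
  have h3 : |(q : ℝ) * θ - q * (h / v)| ≤ 1 / (2 * (v : ℝ)) := by
    have e : (q : ℝ) * θ - q * (h / v) = q * (θ - h / v) := by ring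
    rw [e, abs_mul, abs_of_pos hq0]
    calc (q : ℝ) * |θ - h / v| ≤ q * (1 / (v : ℝ) ^ 2) := by gcongr
      _ = (2 * q) / (2 * v ^ 2) := by
          field_simp
      _ ≤ v / (2 * v ^ 2) := by
          gcongr
          exact_mod_cast hqv
      _ = 1 / (2 * (v : ℝ)) := by
          field_simp
  have h4 : |(q : ℝ) * (h / v) - m| ≤ |(q : ℝ) * θ - m| + |(q : ℝ) * θ - q * (h / v)| := by
    have e : (q : ℝ) * (h / v) - m = ((q : ℝ) * θ - m) - ((q : ℝ) * θ - q * (h / v)) := by ring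
    rw [e]
    exact abs_sub _ _
  have h5 : 1 / (v : ℝ) = 1 / (2 * (v : ℝ)) + 1 / (2 * (v : ℝ)) := by
    field_simp
    norm_num
  have h6 : nd (q * θ) = |(q : ℝ) * θ - m| := rfl
  rw [h6]
  linarith

theorem hGQS : StGQS := by
  intro M Q R v h θ hR hRv hA
  have hv : 1 ≤ v := hA.1
  have hv0 : (0 : ℝ) < v := by exact_mod_cast hv
  have hsub : Icc 1 Q ⊆ Icc 1 R ∪ Ioc R (max R Q) := by
    intro q hq
    rw [mem_Icc] at hq
    rw [mem_union, mem_Icc, mem_Ioc]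
    rcases le_or_gt q R with h1 | h1
    · exact Or.inl ⟨hq.1, h1⟩
    · exact Or.inr ⟨h1, le_trans hq.2 (le_max_right _ _)⟩
  have hdis : Disjoint (Icc 1 R) (Ioc R (max R Q)) := by
    rw [Finset.disjoint_left]
    intro q h1 h2
    rw [mem_Icc] at h1
    rw [mem_Ioc] at h2
    omega
  have hA1 : ∑ q ∈ Icc 1 R, gs ((M : ℝ) / q) (q * θ) ^ 2 ≤ 4 * R * (v : ℝ) ^ 2 := by
    have h1 : ∀ q ∈ Icc 1 R, gs ((M : ℝ) / q) (q * θ) ^ 2 ≤ 4 * (v : ℝ) ^ 2 := by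
      intro q hq
      rw [mem_Icc] at hq
      have h2 := nd_low_GQS hq.1 (by omega) hA
      have h3 : gs ((M : ℝ) / q) (q * θ) ≤ 2 * v := by
        have := gs_le_inv_GQS (N := (M : ℝ) / q) (by positivity) h2
        rwa [one_div_one_div] at this
      have h4 : 0 ≤ gs ((M : ℝ) / q) (q * θ) := gs_nonneg_GQS _ (by positivity)
      calc gs ((M : ℝ) / q) (q * θ) ^ 2 ≤ (2 * (v : ℝ)) ^ 2 := pow_le_pow_left₀ h4 h3 2
        _ = 4 * (v : ℝ) ^ 2 := by ring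
    calc ∑ q ∈ Icc 1 R, gs ((M : ℝ) / q) (q * θ) ^ 2 ≤ ∑ q ∈ Icc 1 R, 4 * (v : ℝ) ^ 2 :=
          Finset.sum_le_sum h1
      _ = 4 * R * (v : ℝ) ^ 2 := by
          rw [Finset.sum_const, Nat.card_Icc, nsmul_eq_mul]
          push_cast [Nat.add_sub_cancel]
          ring
  have hA2 : ∑ q ∈ Ioc R (max R Q), gs ((M : ℝ) / q) (q * θ) ^ 2 ≤ (M : ℝ) ^ 2 / R := by
    have h1 : ∀ q ∈ Ioc R (max R Q), gs ((M : ℝ) / q) (q * θ) ^ 2 ≤
        (M : ℝ) ^ 2 * ((q : ℝ) ^ 2)⁻¹ := by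
      intro q hq
      have h4 : 0 ≤ gs ((M : ℝ) / q) (q * θ) := gs_nonneg_GQS _ (by positivity)
      calc gs ((M : ℝ) / q) (q * θ) ^ 2 ≤ ((M : ℝ) / q) ^ 2 :=
            pow_le_pow_left₀ h4 (gs_le_N_GQS _) 2
        _ = (M : ℝ) ^ 2 * ((q : ℝ) ^ 2)⁻¹ := by
            rw [div_pow, div_eq_mul_inv]
    have h2 := sum_Ioc_inv_sq_le_sub (α := ℝ) (k := R) (n := max R Q) (by omega) (le_max_left _ _)
    have h3 : (0 : ℝ) ≤ ((max R Q : ℕ) : ℝ)⁻¹ := by positivity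
    calc ∑ q ∈ Ioc R (max R Q), gs ((M : ℝ) / q) (q * θ) ^ 2
        ≤ ∑ q ∈ Ioc R (max R Q), (M : ℝ) ^ 2 * ((q : ℝ) ^ 2)⁻¹ := Finset.sum_le_sum h1
      _ = (M : ℝ) ^ 2 * ∑ q ∈ Ioc R (max R Q), ((q : ℝ) ^ 2)⁻¹ := by rw [Finset.mul_sum]
      _ ≤ (M : ℝ) ^ 2 * (R : ℝ)⁻¹ := by
          gcongr
          linarith
      _ = (M : ℝ) ^ 2 / R := by rw [div_eq_mul_inv]
  calc ∑ q ∈ Icc 1 Q, gs ((M : ℝ) / q) (q * θ) ^ 2
      ≤ ∑ q ∈ Icc 1 R ∪ Ioc R (max R Q), gs ((M : ℝ) / q) (q * θ) ^ 2 :=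
        Finset.sum_le_sum_of_subset_of_nonneg hsub (fun _ _ _ => sq_nonneg _)
    _ = ∑ q ∈ Icc 1 R, gs ((M : ℝ) / q) (q * θ) ^ 2 +
        ∑ q ∈ Ioc R (max R Q), gs ((M : ℝ) / q) (q * θ) ^ 2 := Finset.sum_union hdis
    _ ≤ _ := add_le_add hA1 hA2

end Pool.Agent.Helper10.E3
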